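import Pool.Agent.Y6.F.Stm

/-! Project EF, job ST2: the contribution of the pairs of the type 2. -/

set_option autoImplicit false

namespace Pool.Agent.Y312.EF.St2

open Set Filter Topology
open Pool.Agent.Y6.F
open Pool.Agent.Y6.M (Z3 C3 Md cK Frame len nsq br)

lemma pair_sum (k : Z3) (g : Md → ℝ) (hg : ∀ a, 0 ≤ g a) (hs : Summable g) :
    Summable (fun p : Md × Md => if p.1.1.1 + p.2.1.1 = k then g p.1 else 0) ∧
    ∑' p : Md × Md, (if p.1.1.1 + p.2.1.1 = k then g p.1 else 0) ≤ 2 * ∑' a, g a := by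
  set G : Md × Bool → ℝ := fun q => g q.1 with hG
  have hG0 : ∀ q, 0 ≤ G q := fun q => hg _
  have hsum : Summable G := by
    rw [summable_prod_of_nonneg hG0]
    refine ⟨fun a => (hasSum_fintype _).summable, ?_⟩
    have : (fun a : Md => ∑' s : Bool, G (a, s)) = fun a => 2 * g a := by
      funext a
      rw [tsum_bool]
      simp only [hG]
      ring
    rw [this]
    exact hs.mul_left 2
  have htot : ∑' q, G q = 2 * ∑' a, g a := by
    rw [hsum.tsum_prod]
    have : (fun a : Md => ∑' s : Bool, G (a, s)) = fun a => 2 * g a := by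
      funext a
      rw [tsum_bool]
      simp only [hG]
      ring
    rw [this, tsum_mul_left]
  set T : Set (Md × Md) := {p | p.1.1.1 + p.2.1.1 = k} with hT
  set φ : T → Md × Bool := fun p => (p.1.1, p.1.2.2) with hφ
  have hinj : Function.Injective φ := by
    rintro ⟨⟨a, b⟩, h1⟩ ⟨⟨a', b'⟩, h2⟩ h
    simp only [hφ, Prod.mk.injEq] at h
    obtain ⟨h3, h4⟩ := h
    subst h3
    have h5 : a.1.1 + b.1.1 = k := h1
    have h6 : a.1.1 + b'.1.1 = k := h2
    have h7 : b.1.1 = b'.1.1 := add_left_cancel (h5.trans h6.symm)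
    have h8 : b = b' := Prod.ext (Subtype.ext h7) h4
    subst h8
    rfl
  have e : (fun p : Md × Md => if p.1.1.1 + p.2.1.1 = k then g p.1 else 0) =
      T.indicator (fun p => g p.1) := by
    funext p
    rw [indicator_apply]
    rfl
  have hsub : Summable (fun p : T => g p.1.1) := hsum.comp_injective hinj
  constructor
  · rw [e]
    exact summable_subtype_iff_indicator.1 hsub
  · rw [e, ← tsum_subtype T (fun p => g p.1), ← htot]
    exact tsum_comp_le_tsum_of_inj hsum hG0 hinj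

lemma pair_sum' (k : Z3) (g : Md → ℝ) (hg : ∀ a, 0 ≤ g a) (hs : Summable g) :
    Summable (fun p : Md × Md => if p.1.1.1 + p.2.1.1 = k then g p.2 else 0) ∧
    ∑' p : Md × Md, (if p.1.1.1 + p.2.1.1 = k then g p.2 else 0) ≤ 2 * ∑' a, g a := by
  obtain ⟨h1, h2⟩ := pair_sum k g hg hs
  have e : (fun p : Md × Md => if p.1.1.1 + p.2.1.1 = k then g p.2 else 0) =
      (fun p : Md × Md => if p.1.1.1 + p.2.1.1 = k then g p.1 else 0) ∘ (Equiv.prodComm Md Md) := by
    funext p
    simp only [Function.comp_apply, Equiv.prodComm_apply, Prod.fst_swap, Prod.snd_swap]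
    rw [add_comm]
  constructor
  · rw [e]
    exact (Equiv.summable_iff _).2 h1
  · rw [e]
    have h3 := (Equiv.prodComm Md Md).tsum_eq
      (fun p : Md × Md => if p.1.1.1 + p.2.1.1 = k then g p.1 else 0)
    simp only [Function.comp_def] at *
    rw [h3]
    exact h2

/-- the real inequality behind the estimate -/
lemma core (K L μ la lb l E Ea Eb ea eb : ℝ) (hK0 : 0 ≤ K) (hK : K ≤ 2 * Real.pi * L) (hL : 1 ≤ L)
    (hLμ : L ≤ μ) (hla0 : 0 ≤ la) (hlb0 : 0 ≤ lb) (hla : la ≤ 2 * μ) (hlb : lb ≤ 2 * μ)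
    (hl0 : 0 < l) (hl : l ≤ 2 * μ) (hE : 0 ≤ E) (hEa : 0 ≤ Ea) (hEb : 0 ≤ Eb)
    (hea0 : 0 ≤ ea) (heb0 : 0 ≤ eb) (hea : ea ≤ Ea) (heb : eb ≤ Eb) (hEE : Ea * Eb ≤ L * E) :
    K / (10 ^ 60 * μ ^ 12) * (2 * ea * eb + (10 ^ 4 * la ^ 2 * Ea * eb + ea * (10 ^ 4 * lb ^ 2 * Eb))) ≤
      4 * Real.pi * (10 ^ 55)⁻¹ * (L ^ 7)⁻¹ * E * l⁻¹ := by
  have hμ : 1 ≤ μ := hL.trans hLμ
  have hpi := Real.pi_pos
  have h1 : ea * eb ≤ Ea * Eb := mul_le_mul hea heb heb0 hEa
  have h2 : Ea * eb ≤ Ea * Eb := mul_le_mul_of_nonneg_left heb hEa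
  have h3 : ea * Eb ≤ Ea * Eb := mul_le_mul_of_nonneg_right hea hEb
  have hEE0 : 0 ≤ Ea * Eb := mul_nonneg hEa hEb
  have hla2 : la ^ 2 ≤ 4 * μ ^ 2 := by nlinarith
  have hlb2 : lb ^ 2 ≤ 4 * μ ^ 2 := by nlinarith
  have hμ2 : 1 ≤ μ ^ 2 := one_le_pow₀ hμ
  have h4 : la ^ 2 * (Ea * eb) ≤ 4 * μ ^ 2 * (Ea * Eb) :=
    mul_le_mul hla2 h2 (mul_nonneg hEa heb0) (by positivity)
  have h5 : lb ^ 2 * (ea * Eb) ≤ 4 * μ ^ 2 * (Ea * Eb) :=
    mul_le_mul hlb2 h3 (mul_nonneg hea0 hEb) (by positivity)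
  have h6 : ea * eb ≤ μ ^ 2 * (Ea * Eb) := by nlinarith
  have hS : 2 * ea * eb + (10 ^ 4 * la ^ 2 * Ea * eb + ea * (10 ^ 4 * lb ^ 2 * Eb)) ≤
      10 ^ 5 * μ ^ 2 * (L * E) := by
    have h7 : 2 * ea * eb + (10 ^ 4 * la ^ 2 * Ea * eb + ea * (10 ^ 4 * lb ^ 2 * Eb)) =
        2 * (ea * eb) + 10 ^ 4 * (la ^ 2 * (Ea * eb)) + 10 ^ 4 * (lb ^ 2 * (ea * Eb)) := by ring
    rw [h7]
    have h8 : μ ^ 2 * (Ea * Eb) ≤ μ ^ 2 * (L * E) := mul_le_mul_of_nonneg_left hEE (by positivity)
    nlinarith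
  have hD : 0 < 10 ^ 60 * μ ^ 12 := by positivity
  have h9 : L ^ 9 * l ≤ 2 * μ ^ 10 := by
    have h10 : L ^ 9 ≤ μ ^ 9 := pow_le_pow_left₀ (by linarith) hLμ 9
    calc L ^ 9 * l ≤ μ ^ 9 * (2 * μ) := mul_le_mul h10 hl hl0.le (by positivity)
      _ = 2 * μ ^ 10 := by ring
  calc K / (10 ^ 60 * μ ^ 12) *
        (2 * ea * eb + (10 ^ 4 * la ^ 2 * Ea * eb + ea * (10 ^ 4 * lb ^ 2 * Eb)))
      ≤ (2 * Real.pi * L) / (10 ^ 60 * μ ^ 12) * (10 ^ 5 * μ ^ 2 * (L * E)) := by
        apply mul_le_mul _ hS (by positivity) (by positivity)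
        exact div_le_div_of_nonneg_right hK hD.le
    _ = 2 * Real.pi * (10 ^ 55)⁻¹ * (L ^ 7)⁻¹ * E * l⁻¹ * ((L ^ 9 * l) / μ ^ 10) := by
        have hL0 : L ≠ 0 := by positivity
        have hμ0 : μ ≠ 0 := by positivity
        have hl0' : l ≠ 0 := hl0.ne'
        field_simp
    _ ≤ 2 * Real.pi * (10 ^ 55)⁻¹ * (L ^ 7)⁻¹ * E * l⁻¹ * 2 := by
        apply mul_le_mul_of_nonneg_left _ (by positivity)
        rw [div_le_iff₀ (by positivity)]
        exact h9
    _ = _ := by ring

theorem t_ST2 : Pool.Agent.Y6.F.S_ST 2 := by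
  intro hLV hCODE _ hVEC hLAT hENV h hF M hM i hi
  obtain ⟨_, _, _, _, hln, htri⟩ := hCODE
  obtain ⟨hanti, hhalf, _, _, hE1⟩ := hENV.1 M hM
  obtain ⟨hls, hlt⟩ := hLAT.2 hLV
  have hln1 : ∀ a, 1 ≤ ln a := fun a => (hln a).1
  have hln0 : ∀ a, 0 < ln a := fun a => lt_of_lt_of_le one_pos (hln1 a)
  have he0 : ∀ a, 0 ≤ eF M a := by
    intro a
    have := (hE1 (ln a)).1
    have := hln0 a
    unfold eF
    split_ifs <;> positivity
  have heE : ∀ a, eF M a ≤ env M (ln a) := by
    intro a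
    have h1 := (hE1 (ln a)).1
    have h2 := hln1 a
    unfold eF
    split_ifs
    · exact le_rfl
    · have h3 : (ln a ^ 7)⁻¹ ≤ 1 := inv_le_one_of_one_le₀ (one_le_pow₀ h2)
      have h4 : ((10:ℝ) ^ 20)⁻¹ * (ln a ^ 7)⁻¹ ≤ 1 := by
        have : ((10:ℝ) ^ 20)⁻¹ ≤ 1 := inv_le_one_of_one_le₀ (by norm_num)
        have h5 : (0:ℝ) ≤ (ln a ^ 7)⁻¹ := by positivity
        calc ((10:ℝ) ^ 20)⁻¹ * (ln a ^ 7)⁻¹ ≤ 1 * 1 := mul_le_mul this h3 h5 zero_le_one
          _ = 1 := one_mul 1
      calc ((10:ℝ) ^ 20)⁻¹ * (ln a ^ 7)⁻¹ * env M (ln a) ≤ 1 * env M (ln a) :=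
            mul_le_mul_of_nonneg_right h4 h1.le
        _ = env M (ln a) := one_mul _
  have hr0 : ∀ a, 0 ≤ rF M a := by
    intro a
    have := (hE1 (ln a)).1
    have := hln0 a
    unfold rF
    positivity
  set L := ln i with hL
  set E := env M L with hEdef
  have hE0 : 0 < E := (hE1 L).1
  -- product of the envelopes
  have hprod : ∀ a b : Md, a.1.1 + b.1.1 = i.1.1 → env M (ln a) * env M (ln b) ≤ L * E := by
    intro a b hab
    obtain ⟨t1, _, _⟩ := htri i a b hab
    have h2 := hhalf L (hln1 i)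
    have ha := hE1 (ln a)
    have hb := hE1 (ln b)
    have hL2 : 0 < L / 2 := by have := hln0 i; positivity
    rcases le_total (ln a) (ln b) with hle | hle
    · have h3 : env M (ln b) ≤ env M (L / 2) := hanti _ _ hL2 (by linarith)
      calc env M (ln a) * env M (ln b) ≤ 1 * env M (ln b) := mul_le_mul_of_nonneg_right ha.2 hb.1.le
        _ = env M (ln b) := one_mul _
        _ ≤ L * E := h3.trans h2
    · have h3 : env M (ln a) ≤ env M (L / 2) := hanti _ _ hL2 (by linarith)
      calc env M (ln a) * env M (ln b) ≤ env M (ln a) * 1 := mul_le_mul_of_nonneg_left hb.2 ha.1.le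
        _ = env M (ln a) := mul_one _
        _ ≤ L * E := h3.trans h2
  set g : Md → ℝ := fun a => if σM a = 0 then (ln a)⁻¹ else 0 with hg
  have hg0 : ∀ a, 0 ≤ g a := by
    intro a
    have := hln0 a
    simp only [hg]
    split_ifs <;> positivity
  obtain ⟨s1, b1⟩ := pair_sum i.1.1 g hg0 hls
  obtain ⟨s2, b2⟩ := pair_sum' i.1.1 g hg0 hls
  set C : ℝ := 4 * Real.pi * (10 ^ 55)⁻¹ * (L ^ 7)⁻¹ * E with hC
  have hC0 : 0 ≤ C := by
    have := hln0 i
    have := Real.pi_pos
    positivity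
  have hzero : ∀ a b : Md, a.1.1 + b.1.1 ≠ i.1.1 → cK h i a b = 0 := by
    intro a b hab
    unfold cK
    exact if_neg hab
  have hpt : ∀ p : Md × Md, (if Ty i p = 2 then tm h M i p else 0) ≤
      C * (if p.1.1.1 + p.2.1.1 = i.1.1 then g p.1 else 0) +
        C * (if p.1.1.1 + p.2.1.1 = i.1.1 then g p.2 else 0) := by
    rintro ⟨a, b⟩
    simp only
    have hnn : 0 ≤ C * (if a.1.1 + b.1.1 = i.1.1 then g a else 0) +
        C * (if a.1.1 + b.1.1 = i.1.1 then g b else 0) := by
      have := hg0 a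
      have := hg0 b
      split_ifs <;> positivity
    by_cases hT : Ty i (a, b) = 2
    · rw [if_pos hT]
      by_cases hab : a.1.1 + b.1.1 = i.1.1
      · obtain ⟨t1, t2, t3⟩ := htri i a b hab
        have hK1 := (hVEC h hF).2.1 i a b
        rw [if_pos hab, if_pos hab]
        have hga := hg0 a
        have hgb := hg0 b
        have hLa := hln0 a
        have hLb := hln0 b
        have hLi := hln0 i
        by_cases ha : σM a = 0
        · by_cases hb : σM b = 0
          · exfalso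
            unfold Ty at hT
            simp only at hT
            rw [if_pos ha, if_pos hb] at hT
            split_ifs at hT <;> omega
          · have hD : D0 i (a, b) = 10 ^ 60 * max (ln b) (ln i) ^ 12 := by
              unfold D0
              simp only
              rw [if_pos ha, if_neg hb]
            have hDpos : 0 < D0 i (a, b) := by
              rw [hD]
              have : 0 < max (ln b) (ln i) := lt_max_of_lt_left hLb
              positivity
            unfold tm
            rw [if_pos hDpos, hD]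
            have hm1 : ln b ≤ max (ln b) (ln i) := le_max_left _ _
            have hm2 : ln i ≤ max (ln b) (ln i) := le_max_right _ _
            have hc := core ‖cK h i a b‖ L (max (ln b) (ln i)) (ln a) (ln b) (ln a) E
              (env M (ln a)) (env M (ln b)) (eF M a) (eF M b) (norm_nonneg _) hK1.1 (hln1 i) hm2
              hLa.le hLb.le (by linarith) (by linarith) hLa (by linarith) hE0.le (hE1 _).1.le
              (hE1 _).1.le (he0 a) (he0 b) (heE a) (heE b) (hprod a b hab)
            have hgv : g a = (ln a)⁻¹ := by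
              simp only [hg]
              rw [if_pos ha]
            rw [hgv]
            have hCb : 0 ≤ C * g b := mul_nonneg hC0 hgb
            have hc' : ‖cK h i a b‖ / (10 ^ 60 * max (ln b) (ln i) ^ 12) *
                (2 * eF M a * eF M b + (rF M a * eF M b + eF M a * rF M b)) ≤ C * (ln a)⁻¹ := hc
            linarith
        · by_cases hb : σM b = 0
          · have hD : D0 i (a, b) = 10 ^ 60 * max (ln a) (ln i) ^ 12 := by
              unfold D0
              simp only
              rw [if_neg ha, if_pos hb]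
            have hDpos : 0 < D0 i (a, b) := by
              rw [hD]
              have : 0 < max (ln a) (ln i) := lt_max_of_lt_left hLa
              positivity
            unfold tm
            rw [if_pos hDpos, hD]
            have hm1 : ln a ≤ max (ln a) (ln i) := le_max_left _ _
            have hm2 : ln i ≤ max (ln a) (ln i) := le_max_right _ _
            have hc := core ‖cK h i a b‖ L (max (ln a) (ln i)) (ln a) (ln b) (ln b) E
              (env M (ln a)) (env M (ln b)) (eF M a) (eF M b) (norm_nonneg _) hK1.1 (hln1 i) hm2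
              hLa.le hLb.le (by linarith) (by linarith) hLb (by linarith) hE0.le (hE1 _).1.le
              (hE1 _).1.le (he0 a) (he0 b) (heE a) (heE b) (hprod a b hab)
            have hgv : g b = (ln b)⁻¹ := by
              simp only [hg]
              rw [if_pos hb]
            rw [hgv]
            have hCa : 0 ≤ C * g a := mul_nonneg hC0 hga
            have hc' : ‖cK h i a b‖ / (10 ^ 60 * max (ln a) (ln i) ^ 12) *
                (2 * eF M a * eF M b + (rF M a * eF M b + eF M a * rF M b)) ≤ C * (ln b)⁻¹ := hc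
            linarith
          · exfalso
            unfold Ty at hT
            simp only at hT
            rw [if_neg ha, if_neg hb] at hT
            split_ifs at hT <;> omega
      · have h0 : tm h M i (a, b) = 0 := by
          unfold tm
          simp only
          rw [hzero a b hab, norm_zero]
          split_ifs <;> simp
        rw [h0]
        exact hnn
    · rw [if_neg hT]
      exact hnn
  have htm0 : ∀ p : Md × Md, 0 ≤ (if Ty i p = 2 then tm h M i p else 0) := by
    rintro ⟨a, b⟩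
    split_ifs
    · unfold tm
      simp only
      have := he0 a
      have := he0 b
      have := hr0 a
      have := hr0 b
      split_ifs with h1
      · positivity
      · positivity
    · exact le_rfl
  have hsumF : Summable (fun p : Md × Md =>
      C * (if p.1.1.1 + p.2.1.1 = i.1.1 then g p.1 else 0) +
        C * (if p.1.1.1 + p.2.1.1 = i.1.1 then g p.2 else 0)) :=
    (s1.mul_left C).add (s2.mul_left C)
  have hS : Summable (fun p : Md × Md => if Ty i p = 2 then tm h M i p else 0) :=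
    Summable.of_nonneg_of_le htm0 hpt hsumF
  refine ⟨hS, (hS.tsum_le_tsum hpt hsumF).trans ?_⟩
  rw [(s1.mul_left C).tsum_add (s2.mul_left C), tsum_mul_left, tsum_mul_left]
  have hg1 : ∑' a, g a ≤ 1 := hlt
  have h1 : C * ∑' p : Md × Md, (if p.1.1.1 + p.2.1.1 = i.1.1 then g p.1 else 0) ≤ C * 2 :=
    mul_le_mul_of_nonneg_left (by linarith) hC0
  have h2 : C * ∑' p : Md × Md, (if p.1.1.1 + p.2.1.1 = i.1.1 then g p.2 else 0) ≤ C * 2 :=
    mul_le_mul_of_nonneg_left (by linarith) hC0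
  refine (add_le_add h1 h2).trans ?_
  have hpi := Real.pi_lt_d2
  have hpi0 := Real.pi_pos
  have hX : 0 ≤ (L ^ 7)⁻¹ * E := by
    have := hln0 i
    positivity
  have e1 : C * 2 + C * 2 = (16 * Real.pi * (10 ^ 55)⁻¹) * ((L ^ 7)⁻¹ * E) := by
    rw [hC]
    ring
  have e2 : (10 ^ 20)⁻¹ / 10 * (L ^ 7)⁻¹ * E = ((10 ^ 20)⁻¹ / 10 : ℝ) * ((L ^ 7)⁻¹ * E) := by ring
  rw [e1, e2]
  apply mul_le_mul_of_nonneg_right _ hX
  have : (16 * Real.pi * (10 ^ 55)⁻¹ : ℝ) ≤ 16 * 3.15 * (10 ^ 55)⁻¹ := by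
    apply mul_le_mul_of_nonneg_right _ (by positivity)
    linarith
  refine this.trans ?_
  norm_num

end Pool.Agent.Y312.EF.St2
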